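import Pool.Agent.Lib.MP_4432a5_co_ML.Count

set_option autoImplicit false

/-!
# Copies of a complete bipartite graph glued along a triangle
-/

namespace Pool.Agent.MP4432a5ML

open SimpleGraph

section bip

variable {r s : ℕ}

/-- the side of a vertex of `K_{r+2,s+1}` -/
def side (x : (Fin 2 ⊕ Unit) ⊕ (Fin r ⊕ Fin s)) : Bool :=
  Sum.elim (Sum.elim (fun _ => true) (fun _ => false))
    (Sum.elim (fun _ => true) (fun _ => false)) x

/-- `K_{r+2,s+1}` with one more edge, so that the first three vertices form a triangle -/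
def bip (r s : ℕ) : SimpleGraph ((Fin 2 ⊕ Unit) ⊕ (Fin r ⊕ Fin s)) where
  Adj x y := x ≠ y ∧ (side x ≠ side y ∨ (x.isLeft = true ∧ y.isLeft = true))
  symm := ⟨fun _ _ h => ⟨h.1.symm, by
    rcases h.2 with h | h
    · exact Or.inl h.symm
    · exact Or.inr ⟨h.2, h.1⟩⟩⟩
  loopless := ⟨fun _ h => h.1 rfl⟩

theorem bip_clique (a b : Fin 2 ⊕ Unit) (h : a ≠ b) :
    (bip r s).Adj (Sum.inl a) (Sum.inl b) :=
  ⟨fun h' => h (Sum.inl_injective h'), Or.inr ⟨rfl, rfl⟩⟩

theorem bip_count : (2 * (∑ a : Fin 2 ⊕ Unit, ∑ p : Fin r ⊕ Fin s,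
      ad (bip r s) (Sum.inl a) (Sum.inr p)) +
    ∑ p : Fin r ⊕ Fin s, ∑ q : Fin r ⊕ Fin s, ad (bip r s) (Sum.inr p) (Sum.inr q)) =
      2 * (r + 2 * s + r * s : ℝ) := by
  classical
  simp only [Fintype.sum_sum_type]
  simp [ad, bip, side]
  ring

theorem side_true_card : (Finset.univ.filter fun x : (Fin 2 ⊕ Unit) ⊕ (Fin r ⊕ Fin s) =>
    side x = true).card = r + 2 := by
  classical
  rw [Finset.card_filter]
  simp only [Fintype.sum_sum_type]
  simp [side]
  omega

theorem side_false_card : (Finset.univ.filter fun x : (Fin 2 ⊕ Unit) ⊕ (Fin r ⊕ Fin s) =>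
    side x = false).card = s + 1 := by
  classical
  rw [Finset.card_filter]
  simp only [Fintype.sum_sum_type]
  simp [side]
  omega

/-- counting one side -/
theorem side_count {n : ℕ} (v : Bool) {b : Fin n → (Fin 2 ⊕ Unit) ⊕ (Fin r ⊕ Fin s)}
    (u : Fin n → Fin n → (Fin 2 ⊕ Unit) ⊕ (Fin r ⊕ Fin s)) (hb : Function.Injective b)
    (hu : ∀ i j, i ≠ j → ¬ (bip r s).Adj (b i) (b j) →
        (∀ l, b l ≠ u i j) ∧
        (((b i).isRight = true ∧ (bip r s).Adj (u i j) (b i)) ∨
          ((b j).isRight = true ∧ (bip r s).Adj (u i j) (b j))))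
    (hinj : ∀ i j i' j', i ≠ j → i' ≠ j' → ¬ (bip r s).Adj (b i) (b j) →
      ¬ (bip r s).Adj (b i') (b j') →
        u i j = u i' j' → (i = i' ∧ j = j') ∨ (i = j' ∧ j = i')) (t : ℕ)
    (ht : (Finset.univ.filter fun x : (Fin 2 ⊕ Unit) ⊕ (Fin r ⊕ Fin s) =>
      side x = v ∧ x.isLeft = true).card = t) :
    (Finset.univ.filter fun i => side (b i) = v).card ^ 2 +
      2 * (Finset.univ.filter fun i => side (b i) = !v).card ≤
    (Finset.univ.filter fun i => side (b i) = v).card + t * (t - 1) +
      2 * (Finset.univ.filter fun x : (Fin 2 ⊕ Unit) ⊕ (Fin r ⊕ Fin s) =>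
        side x = !v).card := by
  classical
  set I := Finset.univ.filter fun i => side (b i) = v with hI
  set J := Finset.univ.filter fun i => side (b i) = !v with hJ
  set S := I.offDiag.filter fun q => ¬ (bip r s).Adj (b q.1) (b q.2) with hS
  set R := I.offDiag.filter fun q => (bip r s).Adj (b q.1) (b q.2) with hR
  set B := Finset.univ.filter fun x : (Fin 2 ⊕ Unit) ⊕ (Fin r ⊕ Fin s) => side x = !v with hB
  set X := B.filter fun x => ∀ l, b l ≠ x with hX
  have h1 : S.card + R.card = I.card * I.card - I.card := by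
    rw [← Finset.offDiag_card, hS, hR, add_comm]
    exact Finset.card_filter_add_card_filter_not _
  have h2 : R.card ≤ t * (t - 1) := by
    set L := Finset.univ.filter fun x : (Fin 2 ⊕ Unit) ⊕ (Fin r ⊕ Fin s) =>
      side x = v ∧ x.isLeft = true with hL
    have h3 : R.card ≤ L.offDiag.card := by
      refine Finset.card_le_card_of_injOn (fun q => (b q.1, b q.2)) ?_ ?_
      · intro q hq
        simp only [hR, hI, Finset.coe_filter, Finset.mem_offDiag, Finset.mem_filter,
          Finset.mem_univ, true_and, Set.mem_ofPred_eq] at hq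
        obtain ⟨⟨q1, q2, q3⟩, q4⟩ := hq
        simp only [Finset.mem_coe, Finset.mem_offDiag, hL, Finset.mem_filter, Finset.mem_univ,
          true_and]
        rcases q4.2 with h | h
        · exact absurd (q1.trans q2.symm) h
        · exact ⟨⟨q1, h.1⟩, ⟨q2, h.2⟩, fun h => q3 (hb h)⟩
      · intro q _ q' _ h
        simp only [Prod.mk.injEq] at h
        exact Prod.ext (hb h.1) (hb h.2)
    rw [Finset.offDiag_card, ht] at h3
    refine h3.trans (le_of_eq ?_)
    rw [Nat.mul_sub, mul_one]
  have h4 : S.card ≤ 2 * X.card := by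
    refine Finset.card_le_mul_card_image_of_maps_to (f := fun q => u q.1 q.2) ?_ 2 ?_
    · intro q hq
      simp only [hS, hI, Finset.mem_filter, Finset.mem_offDiag, Finset.mem_univ, true_and] at hq
      obtain ⟨⟨q1, q2, q3⟩, q4⟩ := hq
      obtain ⟨h5, h6⟩ := hu _ _ q3 q4
      simp only [hX, hB, Finset.mem_filter, Finset.mem_univ, true_and]
      refine ⟨?_, h5⟩
      rcases h6 with ⟨h6, h7⟩ | ⟨h6, h7⟩
      · rcases h7.2 with h8 | h8
        · rw [q1] at h8
          exact Bool.eq_not.2 h8
        · rcases hx : b q.1 with y | y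
          · rw [hx] at h6; simp at h6
          · rw [hx] at h8; simp at h8
      · rcases h7.2 with h8 | h8
        · rw [q2] at h8
          exact Bool.eq_not.2 h8
        · rcases hx : b q.2 with y | y
          · rw [hx] at h6; simp at h6
          · rw [hx] at h8; simp at h8
    · intro x _
      rcases (S.filter fun q => u q.1 q.2 = x).eq_empty_or_nonempty with h | ⟨q0, h0⟩
      · rw [h]; simp
      · refine (Finset.card_le_card (t := {q0, (q0.2, q0.1)}) ?_).trans Finset.card_le_two
        intro q hq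
        simp only [hS, hI, Finset.mem_filter, Finset.mem_offDiag, Finset.mem_univ,
          true_and] at hq h0
        obtain ⟨⟨⟨q1, q2, q3⟩, q4⟩, q5⟩ := hq
        obtain ⟨⟨⟨p1, p2, p3⟩, p4⟩, p5⟩ := h0
        rcases hinj _ _ _ _ q3 p3 q4 p4 (q5.trans p5.symm) with ⟨h6, h7⟩ | ⟨h6, h7⟩
        · simp [Prod.ext_iff, h6, h7]
        · simp [Prod.ext_iff, h6, h7]
  have h5 : X.card + J.card ≤ B.card := by
    have h6 : (J.image b).card = J.card := Finset.card_image_of_injective _ hb
    rw [← h6, ← Finset.card_union_of_disjoint]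
    · refine Finset.card_le_card ?_
      intro x hx
      rcases Finset.mem_union.1 hx with hx | hx
      · exact (Finset.mem_filter.1 hx).1
      · obtain ⟨i, hi, rfl⟩ := Finset.mem_image.1 hx
        simp only [hB, Finset.mem_filter, Finset.mem_univ, true_and]
        exact (Finset.mem_filter.1 hi).2
    · rw [Finset.disjoint_left]
      intro x hx hx'
      obtain ⟨i, hi, rfl⟩ := Finset.mem_image.1 hx'
      exact (Finset.mem_filter.1 hx).2 i rfl
  have h7 : I.card ≤ I.card * I.card := Nat.le_mul_self _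
  rw [pow_two]
  omega

/-- If no `a + b = n` fit, then `f(n) ≥ 2(rs + r + 2s)/(r + s)`. -/
theorem bip_bound {n : ℕ} (hn : 6 ≤ n) (hrs : 0 < r)
    (hab : ∀ a b : ℕ, a + b = n → a ^ 2 + 2 * b ≤ a + 2 + 2 * (s + 1) →
      b ^ 2 + 2 * a ≤ b + 2 * (r + 2) → False) {c : ℝ} (hc : Admissible n c) :
    2 * (r + 2 * s + r * s : ℝ) / (r + s) ≤ c := by
  classical
  have : Nonempty (Fin r ⊕ Fin s) := ⟨Sum.inl ⟨0, hrs⟩⟩
  have h := lower_bound (bip r s) (n := n) ?_ hc
  · rw [bip_count] at h
    simpa using h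
  intro N hTK
  obtain ⟨b, u, hb, hu, hinj⟩ := reduce (bip r s) bip_clique (by simp; omega) hTK
  have h1 := side_count true u hb hu hinj 2 (by
    rw [Finset.card_filter]; simp only [Fintype.sum_sum_type]; simp [side])
  have h2 := side_count false u hb hu hinj 1 (by
    rw [Finset.card_filter]; simp only [Fintype.sum_sum_type]; simp [side])
  simp only [Bool.not_true, Bool.not_false] at h1 h2
  rw [side_false_card] at h1
  rw [side_true_card] at h2
  refine hab _ _ ?_ h1 (by simpa using h2)
  have h3 := Finset.card_filter_add_card_filter_not (s := (Finset.univ : Finset (Fin n)))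
    (fun i => side (b i) = true)
  simpa using h3

end bip

end Pool.Agent.MP4432a5ML
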