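import Pool.Agent.Lib.MP_4432a5_co_ML.Glue

set_option autoImplicit false

/-!
# Edge numbers of glued graphs
-/

namespace Pool.Agent.MP4432a5ML

open SimpleGraph

open scoped Classical in
/-- adjacency as a number -/
noncomputable def ad {V : Type} (G : SimpleGraph V) (x y : V) : ℝ := if G.Adj x y then 1 else 0

theorem two_edges {V : Type} [Fintype V] (G : SimpleGraph V) :
    2 * (G.edgeSet.ncard : ℝ) = ∑ x, ∑ y, ad G x y := by
  classical
  have h1 : ∀ x, ∑ y, ad G x y = (G.degree x : ℝ) := by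
    intro x
    simp only [ad, ← card_neighborFinset_eq_degree]
    rw [Finset.sum_boole]
    congr 2
    ext y
    simp
  rw [Finset.sum_congr rfl (fun x _ => h1 x)]
  have h2 := G.sum_degrees_eq_twice_card_edges
  have h3 : G.edgeSet.ncard = G.edgeFinset.card := by
    rw [← SimpleGraph.coe_edgeFinset, Set.ncard_coe_finset]
  rw [h3]
  exact_mod_cast h2.symm

section

variable {T P : Type} [Fintype T] [Fintype P]

theorem glue_count (H : SimpleGraph (T ⊕ P)) (N : ℕ) :
    ∑ x, ∑ y, ad (glue H N) x y = (∑ a, ∑ b, ad H (Sum.inl a) (Sum.inl b)) +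
      N * (2 * (∑ a, ∑ p, ad H (Sum.inl a) (Sum.inr p)) +
        ∑ p, ∑ q, ad H (Sum.inr p) (Sum.inr q)) := by
  classical
  simp only [Fintype.sum_sum_type, Fintype.sum_prod_type]
  have e1 : ∀ a b : T, ad (glue H N) (Sum.inl a) (Sum.inl b) = ad H (Sum.inl a) (Sum.inl b) := by
    intro a b; simp [ad, glue, fold, cp]
  have e2 : ∀ (a : T) (k : Fin N) (p : P), ad (glue H N) (Sum.inl a) (Sum.inr (k, p))
      = ad H (Sum.inl a) (Sum.inr p) := by
    intro a k p; simp [ad, glue, fold, cp]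
  have e3 : ∀ (a : T) (k : Fin N) (p : P), ad (glue H N) (Sum.inr (k, p)) (Sum.inl a)
      = ad H (Sum.inl a) (Sum.inr p) := by
    intro a k p; simp [ad, glue, fold, cp, H.adj_comm]
  have e4 : ∀ (k l : Fin N) (p q : P), ad (glue H N) (Sum.inr (k, p)) (Sum.inr (l, q))
      = if k = l then ad H (Sum.inr p) (Sum.inr q) else 0 := by
    intro k l p q
    by_cases hkl : k = l
    · simp [ad, glue, fold, cp, hkl]
    · simp [ad, glue, cp, hkl]
  simp only [e1, e2, e3, e4, Finset.sum_add_distrib]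
  have f1 : ∑ x : T, ∑ _k : Fin N, ∑ p : P, ad H (Sum.inl x) (Sum.inr p)
      = N * ∑ a : T, ∑ p : P, ad H (Sum.inl a) (Sum.inr p) := by
    rw [Finset.mul_sum]
    refine Finset.sum_congr rfl fun a _ => ?_
    simp
  have f2 : ∑ _k : Fin N, ∑ p : P, ∑ a : T, ad H (Sum.inl a) (Sum.inr p)
      = N * ∑ a : T, ∑ p : P, ad H (Sum.inl a) (Sum.inr p) := by
    rw [Finset.sum_comm (s := (Finset.univ : Finset T))]
    simp
  have f3 : ∑ k : Fin N, ∑ p : P, ∑ l : Fin N, ∑ q : P,
      (if k = l then ad H (Sum.inr p) (Sum.inr q) else 0)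
      = N * ∑ p : P, ∑ q : P, ad H (Sum.inr p) (Sum.inr q) := by
    have : ∀ (k : Fin N) (p : P), ∑ l : Fin N, ∑ q : P,
        (if k = l then ad H (Sum.inr p) (Sum.inr q) else 0)
        = ∑ q : P, ad H (Sum.inr p) (Sum.inr q) := by
      intro k p
      rw [Finset.sum_comm]
      refine Finset.sum_congr rfl fun q _ => ?_
      simp
    simp only [this]
    simp
  rw [f1, f2, f3]
  ring

/-- the lower bound on admissible constants -/
theorem lower_bound (H : SimpleGraph (T ⊕ P)) [Nonempty P] {n : ℕ}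
    (hH : ∀ N, ¬ HasTK (glue H N) n) {c : ℝ} (hc : Admissible n c) :
    (2 * (∑ a, ∑ p, ad H (Sum.inl a) (Sum.inr p)) + ∑ p, ∑ q, ad H (Sum.inr p) (Sum.inr q)) /
      (Fintype.card P : ℝ) ≤ c := by
  classical
  by_contra hlt
  push Not at hlt
  set d : ℝ := 2 * (∑ a, ∑ p, ad H (Sum.inl a) (Sum.inr p)) +
    ∑ p, ∑ q, ad H (Sum.inr p) (Sum.inr q) with hd
  have hp : (0 : ℝ) < (Fintype.card P : ℝ) := by exact_mod_cast Fintype.card_pos
  have hdc : 0 < d - c * Fintype.card P := by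
    rw [lt_div_iff₀ hp] at hlt
    linarith
  obtain ⟨N, hN⟩ := exists_nat_gt (c * Fintype.card T / (d - c * Fintype.card P))
  have hN' : c * Fintype.card T < (N + 1 : ℝ) * (d - c * Fintype.card P) := by
    rw [div_lt_iff₀ hdc] at hN
    nlinarith
  have htt : 0 ≤ ∑ a : T, ∑ b : T, ad H (Sum.inl a) (Sum.inl b) := by
    refine Finset.sum_nonneg fun a _ => Finset.sum_nonneg fun b _ => ?_
    unfold ad; split_ifs <;> norm_num
  have : Nonempty (T ⊕ (Fin (N + 1) × P)) := ⟨Sum.inr (0, Classical.arbitrary P)⟩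
  apply hH (N + 1)
  apply hc _ (glue H (N + 1))
  rw [two_edges, glue_count, ← hd]
  have hcard : (Fintype.card (T ⊕ (Fin (N + 1) × P)) : ℝ)
      = Fintype.card T + (N + 1) * Fintype.card P := by
    simp
  rw [hcard, le_div_iff₀ (by positivity)]
  push_cast
  nlinarith

end

end Pool.Agent.MP4432a5ML
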