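import Pool.Agent.Lib.MP_4432a5_co_ML.Count

set_option autoImplicit false

/-!
# Copies of the complement of a 13-cycle
-/

namespace Pool.Agent.MP4432a5ML

open SimpleGraph

section cyc

variable {m : ℕ}

/-- position on the 13-cycle: the private vertices have the even positions `0, 2, …, 12`, six
vertices of the clique the odd positions `1, 3, …, 11` -/
def pos (x : (Fin 6 ⊕ Fin m) ⊕ Fin 7) : Option (Fin 13) :=
  Sum.elim (Sum.elim (fun a => some ⟨2 * a.1 + 1, by omega⟩) (fun _ => none))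
    (fun p => some ⟨2 * p.1, by omega⟩) x

/-- complement of a 13-cycle, joined to `m` further vertices -/
def cyc (m : ℕ) : SimpleGraph ((Fin 6 ⊕ Fin m) ⊕ Fin 7) where
  Adj x y := x ≠ y ∧ ∀ i : Fin 13, ¬ (pos x = some i ∧ pos y = some (i + 1)) ∧
    ¬ (pos y = some i ∧ pos x = some (i + 1))
  symm := ⟨fun _ _ h => ⟨h.1.symm, fun i => ⟨(h.2 i).2, (h.2 i).1⟩⟩⟩
  loopless := ⟨fun _ h => h.1 rfl⟩

theorem cyc_clique (a b : Fin 6 ⊕ Fin m) (h : a ≠ b) :
    (cyc m).Adj (Sum.inl a) (Sum.inl b) := by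
  refine ⟨fun h' => h (Sum.inl_injective h'), fun i => ?_⟩
  rcases a with a | a <;> rcases b with b | b
  · simp only [pos, Sum.elim_inl]
    clear h
    revert i b a
    decide
  all_goals simp [pos]

theorem cyc_tp (a : Fin 6) (p : Fin 7) : (cyc m).Adj (Sum.inl (Sum.inl a)) (Sum.inr p) ↔
    ¬ (p.1 = a.1 ∨ p.1 = a.1 + 1) := by
  simp only [cyc, pos, Sum.elim_inl, Sum.elim_inr, ne_eq, reduceCtorEq, not_false_eq_true,
    true_and]
  revert a p
  decide

theorem cyc_up (a : Fin m) (p : Fin 7) : (cyc m).Adj (Sum.inl (Sum.inr a)) (Sum.inr p) := by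
  simp [cyc, pos]

theorem cyc_pp (p q : Fin 7) : (cyc m).Adj (Sum.inr p) (Sum.inr q) ↔
    (p ≠ q ∧ ¬ (p.1 = 0 ∧ q.1 = 6) ∧ ¬ (p.1 = 6 ∧ q.1 = 0)) := by
  simp only [cyc, pos, Sum.elim_inr, ne_eq, Sum.inr.injEq]
  revert p q
  decide

theorem cyc_count : (2 * (∑ a : Fin 6 ⊕ Fin m, ∑ p : Fin 7, ad (cyc m) (Sum.inl a) (Sum.inr p)) +
    ∑ p : Fin 7, ∑ q : Fin 7, ad (cyc m) (Sum.inr p) (Sum.inr q)) = 100 + 14 * (m : ℝ) := by
  classical
  have h1 : ∑ a : Fin 6, ∑ p : Fin 7, ad (cyc m) (Sum.inl (Sum.inl a)) (Sum.inr p) = 30 := by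
    have e : ∑ a : Fin 6, ∑ p : Fin 7, (if ¬ (p.1 = a.1 ∨ p.1 = a.1 + 1) then 1 else 0)
        = (30 : ℕ) := by decide
    have e' := congrArg (Nat.cast : ℕ → ℝ) e
    push_cast at e'
    rw [← e']
    refine Finset.sum_congr rfl fun a _ => Finset.sum_congr rfl fun p _ => ?_
    unfold ad
    simp only [cyc_tp]
  have h2 : ∑ a : Fin m, ∑ p : Fin 7, ad (cyc m) (Sum.inl (Sum.inr a)) (Sum.inr p)
      = 7 * m := by
    have : ∀ (a : Fin m) (p : Fin 7), ad (cyc m) (Sum.inl (Sum.inr a)) (Sum.inr p) = 1 := by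
      intro a p; unfold ad; rw [if_pos (cyc_up a p)]
    simp only [this]
    simp
    ring
  have h3 : ∑ p : Fin 7, ∑ q : Fin 7, ad (cyc m) (Sum.inr p) (Sum.inr q) = 40 := by
    have e : ∑ p : Fin 7, ∑ q : Fin 7,
        (if (p ≠ q ∧ ¬ (p.1 = 0 ∧ q.1 = 6) ∧ ¬ (p.1 = 6 ∧ q.1 = 0)) then 1 else 0)
        = (40 : ℕ) := by decide
    have e' := congrArg (Nat.cast : ℕ → ℝ) e
    push_cast at e'
    rw [← e']
    refine Finset.sum_congr rfl fun a _ => Finset.sum_congr rfl fun p _ => ?_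
    unfold ad
    simp only [cyc_pp]
  rw [Fintype.sum_sum_type, h1, h2, h3]
  ring

theorem exists_pos (i : Fin 13) : ∃ x : (Fin 6 ⊕ Fin m) ⊕ Fin 7, pos x = some i := by
  rcases Nat.even_or_odd' i.1 with ⟨q, hq | hq⟩
  · refine ⟨Sum.inr ⟨q, by omega⟩, ?_⟩
    simp only [pos, Sum.elim_inr, Option.some.injEq]
    ext; simp; omega
  · refine ⟨Sum.inl (Sum.inl ⟨q, by omega⟩), ?_⟩
    simp only [pos, Sum.elim_inl, Option.some.injEq]
    ext; simp; omega

theorem cyc_noTK (N : ℕ) : ¬ HasTK (glue (cyc m) N) (m + 9) := by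
  classical
  intro h
  obtain ⟨b, u, hb, hu, hinj⟩ := reduce (cyc m) cyc_clique
    (by simp; omega) h
  choose c hc using fun i => exists_pos (m := m) i
  have hcinj : Function.Injective c := by
    intro i j hij
    have := hc i
    rw [hij, hc j] at this
    exact (Option.some.inj this).symm
  set X : Finset ((Fin 6 ⊕ Fin m) ⊕ Fin 7) := Finset.univ.filter fun x => ∀ l, b l ≠ x with hX
  have hXc : X.card = 4 := by
    have h1 : X = Finset.univ \ Finset.univ.image b := by
      ext x; simp [hX]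
    rw [h1, Finset.card_sdiff_of_subset (Finset.subset_univ _),
      Finset.card_image_of_injective _ hb]
    simp
    omega
  set A : Finset (Fin 13) := Finset.univ.filter fun i => ∀ l, b l ≠ c i with hA
  set A' : Finset (Fin 13) := Finset.univ.filter fun i => ∀ l, b l ≠ c (i + 1) with hA'
  have hAc : A.card ≤ 4 := by
    rw [← hXc]
    refine Finset.card_le_card_of_injOn c ?_ hcinj.injOn
    intro i hi
    simp only [hA, Finset.coe_filter, Finset.mem_univ, true_and, Set.mem_ofPred_eq] at hi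
    simp only [hX, Finset.coe_filter, Finset.mem_univ, true_and, Set.mem_ofPred_eq]
    exact hi
  have hA'c : A'.card ≤ 4 := by
    rw [← hXc]
    refine Finset.card_le_card_of_injOn (fun i => c (i + 1)) ?_ ?_
    · intro i hi
      simp only [hA', Finset.coe_filter, Finset.mem_univ, true_and, Set.mem_ofPred_eq] at hi
      simp only [hX, Finset.coe_filter, Finset.mem_univ, true_and, Set.mem_ofPred_eq]
      exact hi
    · intro i _ j _ hij
      exact add_right_cancel (hcinj hij)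
  set E : Finset (Fin 13) := Finset.univ \ (A ∪ A') with hE
  have hEc : 5 ≤ E.card := by
    rw [hE, Finset.card_sdiff_of_subset (Finset.subset_univ _)]
    have := Finset.card_union_le A A'
    simp
    omega
  have hEm : ∀ i ∈ E, (∃ l, b l = c i) ∧ (∃ l, b l = c (i + 1)) := by
    intro i hi
    simp only [hE, hA, hA', Finset.mem_sdiff, Finset.mem_univ, true_and, Finset.mem_union,
      Finset.mem_filter, not_or, not_forall, not_not] at hi
    exact hi
  have hex : ∀ i : Fin 13, ∃ l l' : Fin (m + 9), i ∈ E → b l = c i ∧ b l' = c (i + 1) := by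
    intro i
    by_cases hi : i ∈ E
    · obtain ⟨⟨l, hl⟩, ⟨l', hl'⟩⟩ := hEm i hi
      exact ⟨l, l', fun _ => ⟨hl, hl'⟩⟩
    · exact ⟨0, 0, fun h => absurd h hi⟩
  choose l l' hl using hex
  have hne : ∀ i ∈ E, l i ≠ l' i := by
    intro i hi h
    have h1 := (hl i hi).1
    rw [h, (hl i hi).2] at h1
    have := hcinj h1
    simp at this
  have hna : ∀ i ∈ E, ¬ (cyc m).Adj (b (l i)) (b (l' i)) := by
    intro i hi h
    rw [(hl i hi).1, (hl i hi).2] at h
    exact (h.2 i).1 ⟨hc i, hc (i + 1)⟩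
  have hle : E.card ≤ X.card := by
    refine Finset.card_le_card_of_injOn (fun i => u (l i) (l' i)) ?_ ?_
    · intro i hi
      simp only [hX, Finset.coe_filter, Finset.mem_univ, true_and, Set.mem_ofPred_eq]
      exact (hu _ _ (hne i hi) (hna i hi)).1
    · intro i hi j hj hij
      rcases hinj _ _ _ _ (hne i hi) (hne j hj) (hna i hi) (hna j hj) hij with ⟨h1, -⟩ | ⟨h1, h2⟩
      · apply hcinj
        rw [← (hl i hi).1, ← (hl j hj).1, h1]
      · exfalso
        have h3 : i = j + 1 := hcinj (by rw [← (hl i hi).1, ← (hl j hj).2, h1])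
        have h4 : i + 1 = j := hcinj (by rw [← (hl i hi).2, ← (hl j hj).1, h2])
        rw [h3] at h4
        clear * - h4
        revert j
        decide
  omega

/-- `f(n) ≥ 2n - 26/7` for `n = m + 9` -/
theorem cyc_bound {c : ℝ} (hc : Admissible (m + 9) c) : 2 * ((m + 9 : ℕ) : ℝ) - 26 / 7 ≤ c := by
  have h := lower_bound (cyc m) (n := m + 9) cyc_noTK hc
  rw [cyc_count] at h
  simp at h
  push_cast
  linarith

end cyc

end Pool.Agent.MP4432a5ML
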