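import Mathlib

set_option autoImplicit false

/-!
# Mader's function
-/

namespace Pool.Agent.MP4432a5ML

open SimpleGraph

/-- `G` contains a subdivision of `K_n`: branch vertices `b i`, and for `i < j` a path from `b i`
to `b j`; the paths meet only in branch vertices, and a branch vertex lies on a path only as an
end. -/
def HasTK {V : Type} (G : SimpleGraph V) (n : ℕ) : Prop :=
  ∃ b : Fin n → V, Function.Injective b ∧
    ∃ P : ∀ i j : Fin n, i < j → G.Walk (b i) (b j),
      (∀ i j h, (P i j h).IsPath) ∧
      (∀ i j h l, b l ∈ (P i j h).support → l = i ∨ l = j) ∧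
      (∀ i j h i' j' h', (i, j) ≠ (i', j') →
        ∀ v ∈ (P i j h).support, v ∈ (P i' j' h').support → ∃ l, b l = v)

/-- every finite nonempty graph `G` with `2 e(G) / v(G) ≥ c` contains a subdivision of `K_n` -/
def Admissible (n : ℕ) (c : ℝ) : Prop :=
  ∀ (V : Type) [Fintype V] [Nonempty V] (G : SimpleGraph V),
    c ≤ 2 * (G.edgeSet.ncard : ℝ) / (Fintype.card V : ℝ) → HasTK G n

/-- Mader's function: the infimum of the reals `c` such that every finite graph `G` with
`2 e(G) / v(G) ≥ c` contains a subdivision of `K_n` (as an extended real) -/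
noncomputable def maderF (n : ℕ) : EReal :=
  sInf {x : EReal | ∃ c : ℝ, x = (c : EReal) ∧ Admissible n c}

theorem le_maderF {n : ℕ} {a : ℝ} (h : ∀ c : ℝ, Admissible n c → a ≤ c) :
    (a : EReal) ≤ maderF n := by
  refine le_sInf ?_
  rintro _ ⟨c, rfl, hc⟩
  exact_mod_cast h c hc

end Pool.Agent.MP4432a5ML
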