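import Pool.Agent.Lib.MP_4432a5_co_ML.Defs

set_option autoImplicit false

/-!
# Gluing copies of a graph along a clique, and subdivisions of `K_n`
-/

namespace Pool.Agent.MP4432a5ML

open SimpleGraph

section sym

variable {V : Type} {G : SimpleGraph V} {n : ℕ}

/-- a symmetric form of a subdivision: `S i j` is the vertex set of the path between `b i`
and `b j` -/
theorem HasTK.sym (h : HasTK G n) : ∃ (b : Fin n → V) (S : Fin n → Fin n → Set V),
    Function.Injective b ∧ (∀ i j, i ≠ j → ∃ w : G.Walk (b i) (b j), ∀ v ∈ w.support, v ∈ S i j) ∧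
    (∀ i j, i ≠ j → ∀ l, b l ∈ S i j → l = i ∨ l = j) ∧
    (∀ i j i' j', i ≠ j → i' ≠ j' → ¬ (i = i' ∧ j = j') → ¬ (i = j' ∧ j = i') →
      ∀ v ∈ S i j, v ∈ S i' j' → ∃ l, b l = v) := by
  obtain ⟨b, hb, P, -, h2, h3⟩ := h
  refine ⟨b, fun i j => {v | (∃ h : i < j, v ∈ (P i j h).support) ∨
    (∃ h : j < i, v ∈ (P j i h).support)}, hb, ?_, ?_, ?_⟩
  · intro i j hij
    rcases lt_or_gt_of_ne hij with h | h
    · exact ⟨P i j h, fun v hv => Or.inl ⟨h, hv⟩⟩
    · refine ⟨(P j i h).reverse, fun v hv => Or.inr ⟨h, ?_⟩⟩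
      simpa using hv
  · rintro i j hij l (⟨h, hl⟩ | ⟨h, hl⟩)
    · exact h2 i j h l hl
    · exact (h2 j i h l hl).symm
  · rintro i j i' j' hij hij' hn1 hn2 v (⟨h, hv⟩ | ⟨h, hv⟩) (⟨h', hv'⟩ | ⟨h', hv'⟩)
    · exact h3 i j h i' j' h' (by rintro h0; cases h0; exact hn1 ⟨rfl, rfl⟩) v hv hv'
    · exact h3 i j h j' i' h' (by rintro h0; cases h0; exact hn2 ⟨rfl, rfl⟩) v hv hv'
    · exact h3 j i h i' j' h' (by rintro h0; cases h0; exact hn2 ⟨rfl, rfl⟩) v hv hv'
    · exact h3 j i h j' i' h' (by rintro h0; cases h0; exact hn1 ⟨rfl, rfl⟩) v hv hv'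

end sym

section glue

variable {T P : Type} {N : ℕ}

/-- fold all copies onto one -/
def fold (x : T ⊕ (Fin N × P)) : T ⊕ P := Sum.map id Prod.snd x

/-- the copy of a private vertex -/
def cp (x : T ⊕ (Fin N × P)) : Option (Fin N) := Sum.elim (fun _ => none) (fun y => some y.1) x

/-- `N` copies of `H` glued along `T` -/
def glue (H : SimpleGraph (T ⊕ P)) (N : ℕ) : SimpleGraph (T ⊕ (Fin N × P)) where
  Adj x y := H.Adj (fold x) (fold y) ∧ (cp x = none ∨ cp y = none ∨ cp x = cp y)
  symm := ⟨fun x y h => ⟨h.1.symm, by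
    rcases h.2 with h | h | h
    · exact Or.inr (Or.inl h)
    · exact Or.inl h
    · exact Or.inr (Or.inr h.symm)⟩⟩
  loopless := ⟨fun x h => h.1.ne rfl⟩

theorem fold_inj {x y : T ⊕ (Fin N × P)} {k : Fin N} (hx : cp x = none ∨ cp x = some k)
    (hy : cp y = none ∨ cp y = some k) (h : fold x = fold y) : x = y := by
  rcases x with a | ⟨i, p⟩ <;> rcases y with b | ⟨j, q⟩ <;> simp_all [cp, fold]

theorem cp_isSome {x : T ⊕ (Fin N × P)} (h : (fold x).isRight = true) : ∃ k, cp x = some k := by
  rcases x with a | ⟨i, p⟩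
  · simp [fold] at h
  · exact ⟨i, rfl⟩

theorem cp_none {x : T ⊕ (Fin N × P)} (h : cp x = none) : ∃ a, x = Sum.inl a := by
  rcases x with a | ⟨i, p⟩
  · exact ⟨a, rfl⟩
  · simp [cp] at h

/-- a walk between two copies meets `T` -/
theorem walk_meets (H : SimpleGraph (T ⊕ P)) {x y : T ⊕ (Fin N × P)}
    (w : (glue H N).Walk x y) (hx : cp x ≠ none) (hxy : cp x ≠ cp y) :
    ∃ z ∈ w.support, cp z = none := by
  induction w with
  | nil => exact absurd rfl hxy
  | @cons u v w h p ih =>
    by_cases hv : cp v = none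
    · exact ⟨v, by simp, hv⟩
    · have huv : cp u = cp v := by
        rcases h.2 with h1 | h1 | h1
        · exact absurd h1 hx
        · exact absurd h1 hv
        · exact h1
      obtain ⟨z, hz, hz'⟩ := ih hv (huv ▸ hxy)
      exact ⟨z, by simp [hz], hz'⟩

/-- the last vertex before a private end vertex -/
theorem last_vertex (H : SimpleGraph (T ⊕ P)) {x y : T ⊕ (Fin N × P)} {k : Fin N}
    (w : (glue H N).Walk x y) (hxy : x ≠ y) (hy : cp y = some k) :
    ∃ u ∈ w.support, (glue H N).Adj u y ∧ (cp u = none ∨ cp u = some k) := by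
  have hn : ¬ w.Nil := fun h => hxy h.eq
  refine ⟨w.penultimate, w.getVert_mem_support _, w.adj_penultimate hn, ?_⟩
  rcases (w.adj_penultimate hn).2 with h | h | h
  · exact Or.inl h
  · rw [hy] at h; exact absurd h (by simp)
  · exact Or.inr (h.trans hy)

end glue

section main

variable {T P : Type} [Fintype T]

/-- A subdivision of `K_n` in the glued graph gives branch vertices in one copy and, for every
non-adjacent pair of them, a private vertex of the copy next to one of them. -/
theorem reduce (H : SimpleGraph (T ⊕ P)) (hT : ∀ a b : T, a ≠ b → H.Adj (Sum.inl a) (Sum.inl b))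
    {n N : ℕ} (hn : Fintype.card T + 3 ≤ n) (h : HasTK (glue H N) n) :
    ∃ (b : Fin n → T ⊕ P) (u : Fin n → Fin n → T ⊕ P), Function.Injective b ∧
      (∀ i j, i ≠ j → ¬ H.Adj (b i) (b j) →
        (∀ l, b l ≠ u i j) ∧
        (((b i).isRight = true ∧ H.Adj (u i j) (b i)) ∨
          ((b j).isRight = true ∧ H.Adj (u i j) (b j)))) ∧
      (∀ i j i' j', i ≠ j → i' ≠ j' → ¬ H.Adj (b i) (b j) → ¬ H.Adj (b i') (b j') →
        u i j = u i' j' → (i = i' ∧ j = j') ∨ (i = j' ∧ j = i')) := by
  classical
  obtain ⟨b, S, hb, hw, hS, hD⟩ := h.sym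
  -- all private branch vertices lie in one copy
  have hone : ∀ i j, cp (b i) ≠ none → cp (b j) ≠ none → cp (b i) = cp (b j) := by
    intro i j hi hj
    by_contra hne
    have hij : i ≠ j := fun h => hne (by rw [h])
    have hex : ∀ l : {l : Fin n // l ≠ i ∧ l ≠ j}, ∃ t : T,
        (b l = Sum.inl t) ∨ ((∀ l', b l' ≠ Sum.inl t) ∧
          (Sum.inl t ∈ S i l ∨ Sum.inl t ∈ S l j)) := by
      rintro ⟨l, hli, hlj⟩
      by_cases hl : cp (b l) = none
      · obtain ⟨t, ht⟩ := cp_none hl
        exact ⟨t, Or.inl ht⟩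
      · by_cases hil : cp (b i) = cp (b l)
        · have hlj' : cp (b l) ≠ cp (b j) := by rw [← hil]; exact hne
          obtain ⟨w, hw'⟩ := hw l j hlj
          obtain ⟨z, hz, hz'⟩ := walk_meets H w hl hlj'
          obtain ⟨t, rfl⟩ := cp_none hz'
          refine ⟨t, Or.inr ⟨?_, Or.inr (hw' _ hz)⟩⟩
          intro l' hl'
          rcases hS l j hlj l' (hl' ▸ hw' _ hz) with rfl | rfl
          · exact hl (by rw [hl']; rfl)
          · exact hj (by rw [hl']; rfl)
        · obtain ⟨w, hw'⟩ := hw i l (Ne.symm hli)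
          obtain ⟨z, hz, hz'⟩ := walk_meets H w hi hil
          obtain ⟨t, rfl⟩ := cp_none hz'
          refine ⟨t, Or.inr ⟨?_, Or.inl (hw' _ hz)⟩⟩
          intro l' hl'
          rcases hS i l (Ne.symm hli) l' (hl' ▸ hw' _ hz) with rfl | rfl
          · exact hi (by rw [hl']; rfl)
          · exact hl (by rw [hl']; rfl)
    choose t ht using hex
    have hinj : Function.Injective t := by
      rintro ⟨l, hli, hlj⟩ ⟨l', hli', hlj'⟩ heq
      by_contra hll
      have hll' : l ≠ l' := fun h => hll (by subst h; rfl)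
      have h1 := ht ⟨l, hli, hlj⟩
      have h2 := ht ⟨l', hli', hlj'⟩
      rw [← heq] at h2
      rcases h1 with h1 | ⟨h1, h1'⟩
      · rcases h2 with h2 | ⟨h2, -⟩
        · exact hll' (hb (h1.trans h2.symm))
        · exact h2 l h1
      · rcases h2 with h2 | ⟨h2, h2'⟩
        · exact h1 l' h2
        · have key : ∀ p q p' q' : Fin n, p ≠ q → p' ≠ q' → ¬ (p = p' ∧ q = q') →
              ¬ (p = q' ∧ q = p') → Sum.inl (t ⟨l, hli, hlj⟩) ∈ S p q →
              Sum.inl (t ⟨l, hli, hlj⟩) ∈ S p' q' → False := by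
            intro p q p' q' a1 a2 a3 a4 a5 a6
            obtain ⟨m, hm⟩ := hD p q p' q' a1 a2 a3 a4 _ a5 a6
            exact h1 m hm
          rcases h1' with h1' | h1' <;> rcases h2' with h2' | h2'
          · exact key i l i l' (Ne.symm hli) (Ne.symm hli') (fun h => hll' h.2)
              (fun h => hli' h.1.symm) h1' h2'
          · exact key i l l' j (Ne.symm hli) hlj' (fun h => hli' h.1.symm)
              (fun h => hij h.1) h1' h2'
          · exact key l j i l' hlj (Ne.symm hli') (fun h => hli h.1)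
              (fun h => hll' h.1) h1' h2'
          · exact key l j l' j hlj hlj' (fun h => hll' h.1) (fun h => hlj h.1) h1' h2'
    have hc := Fintype.card_le_of_injective t hinj
    have hc2 : Fintype.card {l : Fin n // l ≠ i ∧ l ≠ j} = n - 2 := by
      rw [Fintype.card_subtype]
      have : (Finset.univ.filter fun l : Fin n => l ≠ i ∧ l ≠ j)
          = (Finset.univ.erase i).erase j := by
        ext l; simp [and_comm]
      rw [this, Finset.card_erase_of_mem (by simp [Ne.symm hij]),
        Finset.card_erase_of_mem (Finset.mem_univ _)]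
      simp
      omega
    have h0 : 1 < n := by have := i.2; have := j.2; by_contra; apply hij; ext; omega
    rw [hc2] at hc
    omega
  -- there is a private branch vertex
  have hpriv : ∃ i, cp (b i) ≠ none := by
    by_contra hno
    push Not at hno
    choose t ht using fun i => cp_none (hno i)
    have : Function.Injective t := fun i j hij => hb (by rw [ht i, ht j, hij])
    have := Fintype.card_le_of_injective t this
    simp at this
    omega
  obtain ⟨i0, hi0⟩ := hpriv
  obtain ⟨k, hk⟩ := Option.ne_none_iff_exists'.1 hi0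
  have hall : ∀ i, cp (b i) = none ∨ cp (b i) = some k := by
    intro i
    by_cases hi : cp (b i) = none
    · exact Or.inl hi
    · exact Or.inr ((hone i i0 hi hi0).trans hk)
  -- adjacency in the copy
  have hadj : ∀ x y : T ⊕ (Fin N × P), (cp x = none ∨ cp x = some k) →
      (cp y = none ∨ cp y = some k) → ((glue H N).Adj x y ↔ H.Adj (fold x) (fold y)) := by
    intro x y hx hy
    refine ⟨fun h => h.1, fun h => ⟨h, ?_⟩⟩
    rcases hx with hx | hx
    · exact Or.inl hx
    · rcases hy with hy | hy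
      · exact Or.inr (Or.inl hy)
      · exact Or.inr (Or.inr (hx.trans hy.symm))
  have hex : ∀ i j : Fin n, ∃ u : T ⊕ (Fin N × P), i ≠ j → ¬ H.Adj (fold (b i)) (fold (b j)) →
      (cp u = none ∨ cp u = some k) ∧ u ∈ S i j ∧ (∀ l, b l ≠ u) ∧
      (((fold (b i)).isRight = true ∧ H.Adj (fold u) (fold (b i))) ∨
          ((fold (b j)).isRight = true ∧ H.Adj (fold u) (fold (b j)))) := by
    intro i j
    by_cases hij : i ≠ j ∧ ¬ H.Adj (fold (b i)) (fold (b j))
    · obtain ⟨hij, hna⟩ := hij
      by_cases hj : cp (b j) = none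
      · -- then `b i` is private
        have hi : cp (b i) = some k := by
          rcases hall i with hi | hi
          · exfalso
            obtain ⟨s, hs⟩ := cp_none hi
            obtain ⟨t, ht⟩ := cp_none hj
            apply hna
            rw [hs, ht]
            exact hT s t (fun h => hij (hb (by rw [hs, ht, h])))
          · exact hi
        obtain ⟨w, hw'⟩ := hw i j hij
        obtain ⟨u, hu, hua, huk⟩ := last_vertex H w.reverse (fun h => hij (hb h.symm)) hi
        have hu' : u ∈ w.support := by simpa using hu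
        refine ⟨u, fun _ _ => ⟨huk, hw' _ hu', ?_, Or.inl ⟨?_, hua.1⟩⟩⟩
        · intro l hl
          rcases hS i j hij l (hl ▸ hw' _ hu') with rfl | rfl
          · exact hua.ne hl.symm
          · apply hna
            rw [hl]
            exact ((hadj _ _ huk (Or.inr hi)).1 hua).symm
        · rcases hbi : b i with a | ⟨c, p⟩
          · rw [hbi] at hi; simp [cp] at hi
          · simp [fold]
      · have hj' : cp (b j) = some k := by
          rcases hall j with h | h
          · exact absurd h hj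
          · exact h
        obtain ⟨w, hw'⟩ := hw i j hij
        obtain ⟨u, hu, hua, huk⟩ := last_vertex H w (fun h => hij (hb h)) hj'
        refine ⟨u, fun _ _ => ⟨huk, hw' _ hu, ?_, Or.inr ⟨?_, hua.1⟩⟩⟩
        · intro l hl
          rcases hS i j hij l (hl ▸ hw' _ hu) with rfl | rfl
          · apply hna
            rw [hl]
            exact (hadj _ _ huk (Or.inr hj')).1 hua
          · exact hua.ne hl.symm
        · rcases hbi : b j with a | ⟨c, p⟩
          · rw [hbi] at hj'; simp [cp] at hj'
          · simp [fold]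
    · refine ⟨b i0, fun h1 h2 => absurd ⟨h1, h2⟩ hij⟩
  choose u hu using hex
  refine ⟨fun i => fold (b i), fun i j => fold (u i j), ?_, ?_, ?_⟩
  · intro i j hij
    exact hb (fold_inj (hall i) (hall j) hij)
  · intro i j hij hna
    obtain ⟨h1, h2, h3, h4⟩ := hu i j hij hna
    exact ⟨fun l hl => h3 l (fold_inj (hall l) h1 hl), h4⟩
  · intro i j i' j' hij hij' hna hna' heq
    obtain ⟨h1, h2, h3, -⟩ := hu i j hij hna
    obtain ⟨h1', h2', -, -⟩ := hu i' j' hij' hna'
    have he : u i j = u i' j' := fold_inj h1 h1' heq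
    by_contra hcon
    rw [not_or] at hcon
    obtain ⟨l, hl⟩ := hD i j i' j' hij hij' hcon.1 hcon.2 _ h2 (he ▸ h2')
    exact h3 l hl

end main

end Pool.Agent.MP4432a5ML
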